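import Pool.Agent.H93.EN.Targets4

/-!
# Bright corners: row LW: mass of the bump on the visible side
-/

set_option autoImplicit false

namespace Pool.Agent.H11.EN

open MeasureTheory Set Metric Filter Topology Pool.Agent.H93.EN
open Pool.Agent.H93.BL hiding T_B1 T_B2 T_B3 T_SB T_SC

theorem sg_refl {ι : Type} (P : Polygon ι) (j : ι) (x y : ℂ) :
    sg P j (2 * y - x) = 2 * sg P j y - sg P j x := by
  unfold sg cr
  simp only [Complex.sub_re, Complex.sub_im, Complex.mul_re, Complex.mul_im, Complex.re_ofNat,
    Complex.im_ofNat]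
  ring

theorem sg_cont {ι : Type} (P : Polygon ι) (j : ι) : Continuous (sg P j) := by
  unfold sg cr
  fun_prop

theorem lw (h1 : T_CHT) (h2 : T_CH) : T_LW := by
  intro ι P y R τ hy hR δ hδ
  obtain ⟨-, -, -, -, C, hC, hchi⟩ := h2
  obtain ⟨c1, c2, c3, c4, c5, c6, -⟩ := hchi δ hδ.1
  obtain ⟨-, -, hpos, hseg, -⟩ := h1 ι P
  have hRp : 0 < R := lt_of_lt_of_le hδ.1 hδ.2
  set G : ℂ → ℝ := fun x => chi δ (x - y) with hG
  have hGi : Integrable G := by
    have e1 : Integrable (chi δ) := c1.continuous.integrable_of_hasCompactSupport c2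
    exact e1.comp_sub_right y
  have hG1 : ∫ x, G x = 1 := by
    rw [hG, integral_sub_right_eq_self (fun x => chi δ x) y]
    exact c5
  have hG0 : ∀ x, 0 ≤ G x := fun x => (c3 _).1
  have hGz : ∀ x, x ∉ ball y δ → G x = 0 := by
    intro x hx
    rw [mem_ball, dist_eq_norm, not_lt] at hx
    exact c4 _ hx
  have hGs : ∀ x, G (2 * y - x) = G x := by
    intro x
    refine c6 _ _ ?_
    rw [show 2 * y - x - y = -(x - y) by ring, norm_neg]
  have hmono : ∀ s : Set ℂ, s ⊆ {x | segment ℝ x y ⊆ P.Ω} →
      ∫ x in s, G x ≤ ∫ x in {x | segment ℝ x y ⊆ P.Ω}, G x := fun s hs =>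
    setIntegral_mono_set hGi.integrableOn (ae_of_all _ hG0) hs.eventuallyLE
  have hball : ∀ x ∈ ball y δ, (∀ j, τ = some j → 0 < sg P j x) → segment ℝ x y ⊆ P.Ω := by
    intro x hx hj
    rw [segment_symm]
    exact (hseg y x R τ hy hR (ball_subset_ball hδ.2 hx)).2 hj
  cases τ with
  | none =>
    have e1 := hmono (ball y δ) fun x hx => hball x hx fun j hj => by simp at hj
    have e2 : ∫ x in ball y δ, G x = ∫ x, G x :=
      setIntegral_eq_integral_of_forall_compl_eq_zero hGz
    rw [e2, hG1] at e1
    linarith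
  | some j =>
    set H : Set ℂ := {x | sg P j y ≤ sg P j x} with hH
    set H' : Set ℂ := {x | sg P j x ≤ sg P j y} with hH'
    have hHm : MeasurableSet H := (isClosed_le continuous_const (sg_cont P j)).measurableSet
    have hHm' : MeasurableSet H' := (isClosed_le (sg_cont P j) continuous_const).measurableSet
    have hsy : 0 < sg P j y := hpos y R j hy hRp hR
    have e1 := hmono (H ∩ ball y δ) fun x hx => hball x hx.2 fun j' hj' => by
      have : j = j' := Option.some.inj hj'
      subst this
      exact lt_of_lt_of_le hsy hx.1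
    have e2 : ∫ x in H, G x = ∫ x in H ∩ ball y δ, G x :=
      setIntegral_eq_of_subset_of_forall_sdiff_eq_zero hHm inter_subset_left
        fun x hx => hGz x fun hb => hx.2 ⟨hx.1, hb⟩
    have e3 : ∫ x in H', G x = ∫ x in H, G x := by
      rw [← integral_indicator hHm, ← integral_indicator hHm',
        ← integral_sub_left_eq_self (fun x => H'.indicator G x) volume (2 * y)]
      refine integral_congr_ae (ae_of_all _ fun x => ?_)
      have e4 : 2 * y - x ∈ H' ↔ x ∈ H := by
        rw [hH, hH', mem_ofPred_eq, mem_ofPred_eq, sg_refl]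
        constructor <;> intro h <;> linarith
      by_cases hx : x ∈ H
      · change H'.indicator G (2 * y - x) = H.indicator G x
        rw [indicator_of_mem (e4.2 hx), indicator_of_mem hx, hGs]
      · change H'.indicator G (2 * y - x) = H.indicator G x
        rw [indicator_of_notMem (fun h => hx (e4.1 h)), indicator_of_notMem hx]
    have e5 : ∫ x, G x ≤ (∫ x in H, G x) + ∫ x in H', G x := by
      have e6 : Hᶜ ⊆ H' := by
        intro x hx
        rw [mem_compl_iff, hH, mem_ofPred_eq, not_le] at hx
        exact hx.le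
      have e7 : ∫ x in Hᶜ, G x ≤ ∫ x in H', G x :=
        setIntegral_mono_set hGi.integrableOn (ae_of_all _ hG0) e6.eventuallyLE
      have e8 := integral_add_compl hHm hGi
      linarith
    linarith

end Pool.Agent.H11.EN
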