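import Pool.Agent.H93.EN.Targets2
import Pool.Agent.H93.BL.Final

/-!
# Bright corners: the billiard map is continuous
-/

namespace Pool.Agent.H11.EN

open MeasureTheory Set Metric Filter Topology Pool.Agent.H93.EN
open Pool.Agent.H93.BL hiding T_B1 T_B2 T_B3 T_SB T_SC

theorem sc : Pool.Agent.H93.EN.T_SC := by
  intro ι _ P z z' hst ε hε
  obtain ⟨i, s₀, φ₀⟩ := z
  obtain ⟨j, s₁, φ₁⟩ := z'
  have hop := (Pool.Agent.H93.BL.Final.pM2 ι P i j).1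
  obtain ⟨α, g, hg, hform⟩ := Pool.Agent.H93.BL.Final.pM3 ι P i j
  have h0 : ((s₀, φ₀) : ℝ × ℝ) ∈ {z : ℝ × ℝ | ∃ z', P.Step (i, z) (j, z')} := ⟨(s₁, φ₁), hst⟩
  -- the explicit formula
  have key : ∀ s φ s' φ' : ℝ, P.Step (i, s, φ) (j, s', φ') →
      φ' = α - φ ∧ 0 < Real.cos (α - φ) ∧
      s' = (g (α - φ) - s * Real.cos φ) / Real.cos (α - φ) := by
    intro s φ s' φ' h
    obtain ⟨h1, h2⟩ := hform s φ s' φ' h
    have hph := h.1
    have hph' := h.2.1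
    have hφ' : φ' = α - φ := by rw [h1]; ring
    have hc' : 0 < Real.cos φ' := Real.cos_pos_of_mem_Ioo ⟨hph'.2.2.1, hph'.2.2.2⟩
    have hc : 0 < Real.cos φ := Real.cos_pos_of_mem_Ioo ⟨hph.2.2.1, hph.2.2.2⟩
    have hαφ : α - φ' = φ := by rw [h1]
    rw [hαφ] at h2
    refine ⟨hφ', by rw [← hφ']; exact hc', ?_⟩
    rw [← hφ', eq_div_iff hc'.ne', h2, div_mul_cancel₀ _ hc.ne']
    ring
  obtain ⟨k1, k2, k3⟩ := key _ _ _ _ hst
  have hgc : Continuous g := hg.continuous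
  have hcont : ContinuousAt (fun p : ℝ × ℝ =>
      (g (α - p.2) - p.1 * Real.cos p.2) / Real.cos (α - p.2)) (s₀, φ₀) := by
    refine ContinuousAt.div ?_ ?_ k2.ne'
    · exact (by fun_prop : Continuous fun p : ℝ × ℝ =>
        g (α - p.2) - p.1 * Real.cos p.2).continuousAt
    · exact (by fun_prop : Continuous fun p : ℝ × ℝ => Real.cos (α - p.2)).continuousAt
  obtain ⟨η₁, hη₁, hb1⟩ := Metric.isOpen_iff.1 hop _ h0
  obtain ⟨η₂, hη₂, hb2⟩ := Metric.continuousAt_iff.1 hcont ε hε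
  refine ⟨min (min η₁ η₂) ε, lt_min (lt_min hη₁ hη₂) hε, ?_⟩
  intro s φ hs hφ
  have hd : dist ((s, φ) : ℝ × ℝ) (s₀, φ₀) < min η₁ η₂ := by
    rw [Prod.dist_eq, max_lt_iff, Real.dist_eq, Real.dist_eq]
    exact ⟨lt_of_lt_of_le hs (min_le_left _ _), lt_of_lt_of_le hφ (min_le_left _ _)⟩
  obtain ⟨⟨s', φ'⟩, hst'⟩ := hb1 (Metric.mem_ball.2 (lt_of_lt_of_le hd (min_le_left _ _)))
  have hc2 := hb2 (lt_of_lt_of_le hd (min_le_right _ _))
  obtain ⟨l1, l2, l3⟩ := key _ _ _ _ hst'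
  refine ⟨(j, s', φ'), hst', rfl, ?_, ?_⟩
  · rw [Real.dist_eq] at hc2
    simp only at hc2
    rw [← l3, ← k3] at hc2
    exact hc2
  · simp only
    rw [l1, k1]
    have h3 : |φ - φ₀| < ε := lt_of_lt_of_le hφ (min_le_right _ _)
    rw [show α - φ - (α - φ₀) = -(φ - φ₀) by ring, abs_neg]
    exact h3

end Pool.Agent.H11.EN
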