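import Pool.Agent.H93.EN.Targets4

/-!
# Bright corners: row SM: smoothness of the modes on the table
-/

set_option autoImplicit false

namespace Pool.Agent.H11.EN

open MeasureTheory Set Metric Filter Topology Pool.Agent.H93.EN
open Pool.Agent.H93.BL hiding T_B1 T_B2 T_B3 T_SB T_SC

theorem sm (h1 : T_GL) (h2 : T_U0) (h3 : T_U1) (h4 : T_U3) (h5 : T_B2) : T_SM := by
  intro ι D δ hδ
  obtain ⟨C, hC, hU0⟩ := h2
  have hmeas : ∀ x, Measurable (Ml (D.X x) δ x) := fun x =>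
    (hU0 (D.X x) (D.Xb x) δ hδ).1.of_uncurry_left
  have hb0 : ∀ x w, 0 ≤ Ml (D.X x) δ x w := fun x w =>
    ((hU0 (D.X x) (D.Xb x) δ hδ).2.2.2 x w).1
  have hb1 : ∀ x w, Ml (D.X x) δ x w ≤ 1 := fun x w =>
    ((hU0 (D.X x) (D.Xb x) δ hδ).2.2.2 x w).2.1
  have habs : ∀ x w, |Ml (D.X x) δ x w| ≤ 1 := fun x w => by
    rw [abs_of_nonneg (hb0 x w)]
    exact hb1 x w
  have hB : ∀ x, (md (Ml (D.X x) δ x) 0 = (av (Ml (D.X x) δ x) : ℂ)) ∧
      (av (fun w => |Ml (D.X x) δ x w|) ≤ 1) ∧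
      ∀ k : ℤ, ‖md (Ml (D.X x) δ x) k‖ ≤ av (fun w => |Ml (D.X x) δ x w|) := by
    intro x
    have e := h5 (Ml (D.X x) δ x) (Ml (D.X x) δ x) 1 (hmeas x) (hmeas x)
      (fun w _ => habs x w) (fun w _ => habs x w)
    exact ⟨e.1, e.2.2.1, fun k => (e.2.2.2 k).1⟩
  have habsf : ∀ x, (fun w => |Ml (D.X x) δ x w|) = Ml (D.X x) δ x := fun x =>
    funext fun w => abs_of_nonneg (hb0 x w)
  have ha0 : ∀ x, 0 ≤ D.a δ x := by
    intro x
    have e := h5 (fun _ => 0) (Ml (D.X x) δ x) 1 measurable_const (hmeas x)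
      (fun w _ => by simp) (fun w _ => habs x w)
    have e2 := e.2.1 fun w _ => hb0 x w
    have e3 : av (fun _ => 0) = 0 := by
      unfold av
      simp
    rw [e3] at e2
    exact e2
  have ha1 : ∀ x, D.a δ x ≤ 1 := by
    intro x
    have e := (hB x).2.1
    rw [habsf x] at e
    exact e
  have hopen : IsOpen (D.OM δ) := by
    have e : D.OM δ = D.P.Ω ∩ {x | 8 * δ < D.κ * infDist x D.B} := rfl
    rw [e]
    exact D.P.isOpen.inter (isOpen_lt continuous_const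
      (continuous_const.mul (continuous_infDist_pt D.B)))
  -- local constancy
  have hloc : ∀ x₀ ∈ D.OM δ, ∀ᶠ x in 𝓝 x₀, Ml (D.X x) δ x = Ml (D.X x₀) δ x ∧
      Hl (D.X x) δ x = Hl (D.X x₀) δ x := by
    intro x₀ hx₀
    obtain ⟨s, hs, hs2⟩ := h1 ι D δ hδ x₀ hx₀.1 hx₀.2
    filter_upwards [ball_mem_nhds x₀ hs] with x hx
    exact (hs2 x hx).2
  have hau : ∀ x₀ ∈ D.OM δ, D.a δ =ᶠ[𝓝 x₀] fun x => av (Ml (D.X x₀) δ x) := by
    intro x₀ hx₀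
    filter_upwards [hloc x₀ hx₀] with x hx
    change av (Ml (D.X x) δ x) = _
    rw [hx.1]
  have huu : ∀ x₀ ∈ D.OM δ, ∀ k, D.u δ k =ᶠ[𝓝 x₀] fun x => md (Ml (D.X x₀) δ x) k := by
    intro x₀ hx₀ k
    filter_upwards [hloc x₀ hx₀] with x hx
    change md (Ml (D.X x) δ x) k = _
    rw [hx.1]
  have hhu : ∀ x₀ ∈ D.OM δ, ∀ k, D.h δ k =ᶠ[𝓝 x₀] fun x => md (Hl (D.X x₀) δ x) k := by
    intro x₀ hx₀ k
    filter_upwards [hloc x₀ hx₀] with x hx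
    change md (Hl (D.X x) δ x) k = _
    rw [hx.2]
  refine ⟨hopen, ?_, fun x => ⟨ha0 x, ha1 x⟩, fun x => (hB x).1, fun k => ⟨?_, ?_, ?_, ?_⟩⟩
  · intro x₀ hx₀
    have e := (h3 (D.X x₀) (D.Xb x₀) δ hδ 0).2.2.2.2
    exact (e.continuousAt.congr (hau x₀ hx₀).symm).continuousWithinAt
  · intro x₀ hx₀
    have e := (h3 (D.X x₀) (D.Xb x₀) δ hδ k).1
    exact (e.contDiffAt.congr_of_eventuallyEq (huu x₀ hx₀ k)).contDiffWithinAt
  · intro x₀ hx₀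
    have e := (h3 (D.X x₀) (D.Xb x₀) δ hδ k).2.2.2.1
    exact (e.continuousAt.congr (hhu x₀ hx₀ k).symm).continuousWithinAt
  · intro x
    exact ((hB x).2.2 k).trans (hB x).2.1
  · intro x₀ hx₀
    have hκ : dist x₀ x₀ + δ < D.κ * infDist x₀ D.B := by
      rw [dist_self, zero_add]
      have e : 8 * δ < D.κ * infDist x₀ D.B := hx₀.2
      linarith
    have e := h4 (D.X x₀) (D.Xb x₀) x₀ _ (D.inv x₀ hx₀.1) δ hδ x₀ hκ k
    rw [(huu x₀ hx₀ k).fderiv_eq]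
    exact e

end Pool.Agent.H11.EN
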